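import Mathlib

set_option autoImplicit false

namespace Pool.Agent.Lib.MP_70c392_co

open SimpleGraph

section Defs

variable {V : Type}

/-- The Voronoi cell `C(v, T)`. -/
def cell (G : SimpleGraph V) (T : Finset V) (v : V) : Set V :=
  {u | ∀ v' ∈ T, G.dist u v ≤ G.dist u v'}

/-- `I(T)`: the number of `v ∈ T` whose cell `C(v, T)` is infinite. -/
noncomputable def numInfiniteCells (G : SimpleGraph V) (T : Finset V) : ℕ :=
  {v : V | v ∈ T ∧ (cell G T v).Infinite}.ncard

/-- The family of finite sets `T` with `|T| ≥ n` and pairwise distances larger than `d`. -/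
def sepFamily (G : SimpleGraph V) (d n : ℕ) : Set (Finset V) :=
  {T | n ≤ T.card ∧ ∀ v₁ ∈ T, ∀ v₂ ∈ T, v₁ ≠ v₂ → d < G.dist v₁ v₂}

/-- The survival number `s(G)`. -/
noncomputable def survivalNumber (G : SimpleGraph V) : ℕ∞ :=
  sSup {m : ℕ∞ | ∃ n : ℕ, 1 ≤ n ∧
    (∃ d : ℕ, ∀ T ∈ sepFamily G d n, n ≤ numInfiniteCells G T) ∧ m = n}

/-- `h v` is the average of `h` over the neighbours of `v`, for every `v`. -/
def IsHarmonic (G : SimpleGraph V) [G.LocallyFinite] (h : V → ℝ) : Prop :=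
  ∀ v, h v = (∑ u ∈ G.neighborFinset v, h u) / (G.degree v : ℝ)

/-- Every bounded harmonic function is constant. -/
def IsLiouville (G : SimpleGraph V) [G.LocallyFinite] : Prop :=
  ∀ h : V → ℝ, IsHarmonic G h → (∃ C : ℝ, ∀ v, |h v| ≤ C) → ∀ u v, h u = h v

/-- The automorphism group acts transitively on the vertices. -/
def IsVertexTransitive (G : SimpleGraph V) : Prop :=
  ∀ u v, ∃ φ : G ≃g G, φ u = v

end Defs

end Pool.Agent.Lib.MP_70c392_co
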