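import Pool.Agent.Lib.MP_70c392_co.Defs

set_option autoImplicit false
set_option linter.unusedSectionVars false

/-!
The Diestel-Leader graphs `DL(q, r)` with `q > r ≥ 2` are vertex-transitive, non-Liouville, and
have survival number at most `q + r + 2`.
-/

namespace Pool.Agent.Lib.MP_70c392_co

open SimpleGraph

/-- Vertices of the Diestel-Leader graph: a height `k`, a configuration `f` on the integers `< k`
vanishing far to the left, and a configuration `g` on the integers `≥ k` vanishing far to the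
right. -/
@[ext] structure Vtx (A B : Type) [Zero A] [Zero B] where
  k : ℤ
  f : ℤ → A
  g : ℤ → B
  f_right : ∀ i, k ≤ i → f i = 0
  f_left : ∃ N : ℤ, ∀ i, i < N → f i = 0
  g_left : ∀ i, i < k → g i = 0
  g_right : ∃ N : ℤ, ∀ i, N ≤ i → g i = 0

section Graph

variable {A B : Type} [Zero A] [Zero B]

/-- `y` is obtained from `x` by `m` steps to the right. -/
def UpN (m : ℕ) (x y : Vtx A B) : Prop :=
  y.k = x.k + m ∧ (∀ i, i < x.k → y.f i = x.f i) ∧ (∀ i, y.k ≤ i → y.g i = x.g i)

/-- The Diestel-Leader graph. -/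
def DL (A B : Type) [Zero A] [Zero B] : SimpleGraph (Vtx A B) where
  Adj x y := UpN 1 x y ∨ UpN 1 y x
  symm := ⟨fun _ _ h => h.symm⟩
  loopless := ⟨by
    rintro x (⟨h, -⟩ | ⟨h, -⟩) <;> push_cast at h <;> omega⟩

lemma adj_iff (x y : Vtx A B) : (DL A B).Adj x y ↔ UpN 1 x y ∨ UpN 1 y x := Iff.rfl

lemma upN_zero {x y : Vtx A B} (h : UpN 0 x y) : x = y := by
  obtain ⟨h1, h2, h3⟩ := h
  have hk : y.k = x.k := by simpa using h1
  ext i
  · exact hk.symm
  · by_cases hi : i < x.k
    · exact (h2 i hi).symm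
    · rw [x.f_right i (by omega), y.f_right i (by omega)]
  · by_cases hi : i < x.k
    · rw [x.g_left i hi, y.g_left i (by omega)]
    · exact (h3 i (by omega)).symm

/-- Truncated vertices. -/
def mk' (k : ℤ) (f : ℤ → A) (g : ℤ → B) (hf : ∃ N : ℤ, ∀ i, i < N → f i = 0)
    (hg : ∃ N : ℤ, ∀ i, N ≤ i → g i = 0) : Vtx A B where
  k := k
  f := fun i => if i < k then f i else 0
  g := fun i => if k ≤ i then g i else 0
  f_right := fun i hi => if_neg (by omega)
  f_left := by
    obtain ⟨N, hN⟩ := hf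
    exact ⟨N, fun i hi => by simp [hN i hi]⟩
  g_left := fun i hi => if_neg (by omega)
  g_right := by
    obtain ⟨N, hN⟩ := hg
    exact ⟨N, fun i hi => by simp [hN i hi]⟩

@[simp] lemma mk'_k (k : ℤ) (f : ℤ → A) (g : ℤ → B) (hf) (hg) :
    (mk' k f g hf hg).k = k := rfl
@[simp] lemma mk'_f (k : ℤ) (f : ℤ → A) (g : ℤ → B) (hf) (hg) (i : ℤ) :
    (mk' k f g hf hg).f i = if i < k then f i else 0 := rfl
@[simp] lemma mk'_g (k : ℤ) (f : ℤ → A) (g : ℤ → B) (hf) (hg) (i : ℤ) :
    (mk' k f g hf hg).g i = if k ≤ i then g i else 0 := rfl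

lemma upN_walk (m : ℕ) : ∀ {x y : Vtx A B}, UpN m x y →
    ∃ w : (DL A B).Walk x y, w.length = m := by
  induction m with
  | zero =>
    intro x y h
    obtain rfl := upN_zero h
    exact ⟨Walk.nil, rfl⟩
  | succ m ih =>
    intro x y h
    obtain ⟨h1, h2, h3⟩ := h
    push_cast at h1
    have hz1 : UpN m x (mk' (x.k + m) y.f x.g y.f_left x.g_right) := by
      refine ⟨rfl, ?_, ?_⟩
      · intro i hi
        rw [mk'_f, if_pos (by omega), h2 i hi]
      · intro i hi
        rw [mk'_k] at hi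
        rw [mk'_g, if_pos hi]
    have hz2 : UpN 1 (mk' (x.k + m) y.f x.g y.f_left x.g_right) y := by
      refine ⟨?_, ?_, ?_⟩
      · rw [mk'_k, h1]; push_cast; ring
      · intro i hi
        rw [mk'_k] at hi
        rw [mk'_f, if_pos hi]
      · intro i hi
        rw [mk'_g, if_pos (by omega), h3 i hi]
    obtain ⟨w, hw⟩ := ih hz1
    have hadj : (DL A B).Adj (mk' (x.k + m) y.f x.g y.f_left x.g_right) y := Or.inl hz2
    refine ⟨w.append (Walk.cons hadj Walk.nil), ?_⟩
    rw [Walk.length_append, Walk.length_cons, Walk.length_nil, hw]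

/-- Certificate for a distance bound. -/
def Cert (c₁ c₂ : ℤ) (x y : Vtx A B) : Prop :=
  c₁ ≤ x.k ∧ c₁ ≤ y.k ∧ x.k ≤ c₂ ∧ y.k ≤ c₂ ∧ (∀ i, i < c₁ → x.f i = y.f i) ∧
    (∀ i, c₂ ≤ i → x.g i = y.g i)

lemma Cert.symm {c₁ c₂ : ℤ} {x y : Vtx A B} (h : Cert c₁ c₂ x y) : Cert c₁ c₂ y x := by
  obtain ⟨h1, h2, h3, h4, h5, h6⟩ := h
  exact ⟨h2, h1, h4, h3, fun i hi => (h5 i hi).symm, fun i hi => (h6 i hi).symm⟩

lemma cert_walk_aux {c₁ c₂ : ℤ} {x y : Vtx A B} (h : Cert c₁ c₂ x y) :
    ∃ w : (DL A B).Walk x y, (w.length : ℤ) = 2 * (c₂ - c₁) - (y.k - x.k) := by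
  obtain ⟨h1, h2, h3, h4, h5, h6⟩ := h
  obtain ⟨m₁, hm₁⟩ := Int.eq_ofNat_of_zero_le (a := x.k - c₁) (by omega)
  obtain ⟨m₂, hm₂⟩ := Int.eq_ofNat_of_zero_le (a := c₂ - c₁) (by omega)
  obtain ⟨m₃, hm₃⟩ := Int.eq_ofNat_of_zero_le (a := c₂ - y.k) (by omega)
  have ha : UpN m₁ (mk' c₁ x.f x.g x.f_left x.g_right) x := by
    refine ⟨?_, ?_, ?_⟩
    · rw [mk'_k]; omega
    · intro i hi
      rw [mk'_k] at hi
      rw [mk'_f, if_pos hi]
    · intro i hi
      rw [mk'_g, if_pos (by omega)]
  have hb : UpN m₃ y (mk' c₂ y.f y.g y.f_left y.g_right) := by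
    refine ⟨?_, ?_, ?_⟩
    · rw [mk'_k]; omega
    · intro i hi
      rw [mk'_f, if_pos (by omega)]
    · intro i hi
      rw [mk'_k] at hi
      rw [mk'_g, if_pos hi]
  have hab : UpN m₂ (mk' c₁ x.f x.g x.f_left x.g_right) (mk' c₂ y.f y.g y.f_left y.g_right) := by
    refine ⟨?_, ?_, ?_⟩
    · rw [mk'_k, mk'_k]; omega
    · intro i hi
      rw [mk'_k] at hi
      rw [mk'_f, mk'_f, if_pos hi, if_pos (by omega), h5 i hi]
    · intro i hi
      rw [mk'_k] at hi
      rw [mk'_g, mk'_g, if_pos hi, if_pos (by omega), h6 i hi]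
  obtain ⟨w₁, hw₁⟩ := upN_walk m₁ ha
  obtain ⟨w₂, hw₂⟩ := upN_walk m₂ hab
  obtain ⟨w₃, hw₃⟩ := upN_walk m₃ hb
  refine ⟨w₁.reverse.append (w₂.append w₃.reverse), ?_⟩
  simp only [Walk.length_append, Walk.length_reverse, hw₁, hw₂, hw₃]
  push_cast
  omega

lemma cert_walk {c₁ c₂ : ℤ} {x y : Vtx A B} (h : Cert c₁ c₂ x y) :
    ∃ w : (DL A B).Walk x y, (w.length : ℤ) = 2 * (c₂ - c₁) - |y.k - x.k| := by
  rcases le_total x.k y.k with hk | hk
  · obtain ⟨w, hw⟩ := cert_walk_aux h
    exact ⟨w, by rw [hw, abs_of_nonneg (by omega)]⟩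
  · obtain ⟨w, hw⟩ := cert_walk_aux h.symm
    refine ⟨w.reverse, ?_⟩
    rw [Walk.length_reverse, hw, abs_of_nonpos (by omega)]
    ring

lemma walk_cert {x y : Vtx A B} (w : (DL A B).Walk x y) :
    ∃ c₁ c₂ : ℤ, Cert c₁ c₂ x y ∧ 2 * (c₂ - c₁) - |y.k - x.k| ≤ (w.length : ℤ) := by
  induction w with
  | @nil u => exact ⟨u.k, u.k, ⟨le_rfl, le_rfl, le_rfl, le_rfl, fun _ _ => rfl, fun _ _ => rfl⟩,
      by simp⟩
  | @cons u v w hadj p ih =>
    obtain ⟨c₁, c₂, ⟨h1, h2, h3, h4, h5, h6⟩, hle⟩ := ih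
    have hlen : ((Walk.cons hadj p).length : ℤ) = p.length + 1 := by
      rw [Walk.length_cons]; push_cast; rfl
    rw [hlen]
    clear hlen
    rcases hadj with ⟨e1, e2, e3⟩ | ⟨e1, e2, e3⟩
    · push_cast at e1
      refine ⟨min c₁ u.k, c₂, ⟨min_le_right _ _, (min_le_left _ _).trans h2, by omega, h4, ?_, ?_⟩,
        ?_⟩
      · intro i hi
        rw [lt_min_iff] at hi
        rw [← e2 i hi.2, h5 i hi.1]
      · intro i hi
        rw [← e3 i (by omega), h6 i hi]
      · rcases le_total v.k w.k with hk | hk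
        · rw [abs_of_nonneg (by omega)] at hle ⊢
          omega
        · rw [abs_of_nonpos (by omega)] at hle
          rcases le_total u.k w.k with hk' | hk'
          · rw [abs_of_nonneg (by omega)]
            omega
          · rw [abs_of_nonpos (by omega)]
            omega
    · push_cast at e1
      refine ⟨c₁, max c₂ u.k, ⟨by omega, h2, le_max_right _ _, h4.trans (le_max_left _ _), ?_, ?_⟩,
        ?_⟩
      · intro i hi
        rw [e2 i (by omega), h5 i hi]
      · intro i hi
        rw [max_le_iff] at hi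
        rw [e3 i hi.2, h6 i hi.1]
      · rcases le_total v.k w.k with hk | hk
        · rw [abs_of_nonneg (by omega)] at hle
          rcases le_total u.k w.k with hk' | hk'
          · rw [abs_of_nonneg (by omega)]
            omega
          · rw [abs_of_nonpos (by omega)]
            omega
        · rw [abs_of_nonpos (by omega)] at hle ⊢
          omega

lemma exists_cert (x y : Vtx A B) : ∃ c₁ c₂ : ℤ, Cert c₁ c₂ x y := by
  obtain ⟨N₁, h₁⟩ := x.f_left
  obtain ⟨N₂, h₂⟩ := y.f_left
  obtain ⟨M₁, h₃⟩ := x.g_right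
  obtain ⟨M₂, h₄⟩ := y.g_right
  refine ⟨min (min x.k y.k) (min N₁ N₂), max (max x.k y.k) (max M₁ M₂), by omega, by omega,
    by omega, by omega, ?_, ?_⟩
  · intro i hi
    rw [h₁ i (by omega), h₂ i (by omega)]
  · intro i hi
    rw [h₃ i (by omega), h₄ i (by omega)]

lemma connected : (DL A B).Connected := by
  have : Nonempty (Vtx A B) :=
    ⟨⟨0, fun _ => 0, fun _ => 0, fun _ _ => rfl, ⟨0, fun _ _ => rfl⟩, fun _ _ => rfl,
      ⟨0, fun _ _ => rfl⟩⟩⟩
  refine Connected.mk fun x y => ?_
  obtain ⟨c₁, c₂, h⟩ := exists_cert x y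
  exact (cert_walk h).choose.reachable

lemma dist_le {c₁ c₂ : ℤ} {x y : Vtx A B} (h : Cert c₁ c₂ x y) :
    ((DL A B).dist x y : ℤ) ≤ 2 * (c₂ - c₁) - |y.k - x.k| := by
  obtain ⟨w, hw⟩ := cert_walk h
  rw [← hw]
  exact_mod_cast SimpleGraph.dist_le w

lemma exists_dist (x y : Vtx A B) :
    ∃ c₁ c₂ : ℤ, Cert c₁ c₂ x y ∧ 2 * (c₂ - c₁) - |y.k - x.k| ≤ ((DL A B).dist x y : ℤ) := by
  obtain ⟨w, hw⟩ := (connected (A := A) (B := B)).exists_walk_length_eq_dist x y
  rw [← hw]
  exact walk_cert w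

end Graph

section Shift

variable {A B : Type} [AddCommGroup A] [AddCommGroup B]

/-- Shift by `m` and translate the configurations by `F` and `G`. -/
def shift (m : ℤ) (F : ℤ → A) (G : ℤ → B) (hF : ∃ N : ℤ, ∀ i, i < N → F i = 0)
    (hG : ∃ N : ℤ, ∀ i, N ≤ i → G i = 0) (x : Vtx A B) : Vtx A B :=
  mk' (x.k + m) (fun i => x.f (i - m) + F i) (fun i => x.g (i - m) + G i)
    (by
      obtain ⟨N, hN⟩ := hF
      obtain ⟨M, hM⟩ := x.f_left
      exact ⟨min N (M + m), fun i hi => by rw [hN i (by omega), hM (i - m) (by omega), add_zero]⟩)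
    (by
      obtain ⟨N, hN⟩ := hG
      obtain ⟨M, hM⟩ := x.g_right
      exact ⟨max N (M + m), fun i hi => by rw [hN i (by omega), hM (i - m) (by omega), add_zero]⟩)

lemma shift_shift (m m' : ℤ) (F F' : ℤ → A) (G G' : ℤ → B) (hF hG hF' hG') (hm : m' = -m)
    (hFF : ∀ i, F' i = -F (i + m)) (hGG : ∀ i, G' i = -G (i + m)) (x : Vtx A B) :
    shift m' F' G' hF' hG' (shift m F G hF hG x) = x := by
  subst hm
  ext i
  · simp [shift]
  · simp only [shift, mk'_f, mk'_k, hFF]
    by_cases h : i < x.k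
    · rw [if_pos (by omega), if_pos (by omega)]
      simp
    · rw [if_neg (by omega), x.f_right i (by omega)]
  · simp only [shift, mk'_g, mk'_k, hGG]
    by_cases h : x.k ≤ i
    · rw [if_pos (by omega), if_pos (by omega)]
      simp
    · rw [if_neg (by omega), x.g_left i (by omega)]

lemma shift_up (m : ℤ) (F : ℤ → A) (G : ℤ → B) (hF hG) {x y : Vtx A B} (h : UpN 1 x y) :
    UpN 1 (shift m F G hF hG x) (shift m F G hF hG y) := by
  obtain ⟨h1, h2, h3⟩ := h
  push_cast at h1
  refine ⟨?_, ?_, ?_⟩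
  · simp only [shift, mk'_k]
    push_cast
    omega
  · intro i hi
    simp only [shift, mk'_k] at hi
    simp only [shift, mk'_f]
    rw [if_pos (by omega), if_pos hi, h2 (i - m) (by omega)]
  · intro i hi
    simp only [shift, mk'_k] at hi
    simp only [shift, mk'_g]
    rw [if_pos hi, if_pos (by omega), h3 (i - m) (by omega)]

/-- The automorphism given by `shift`. -/
def shiftIso (m : ℤ) (F : ℤ → A) (G : ℤ → B) (hF : ∃ N : ℤ, ∀ i, i < N → F i = 0)
    (hG : ∃ N : ℤ, ∀ i, N ≤ i → G i = 0) : DL A B ≃g DL A B where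
  toFun := shift m F G hF hG
  invFun := shift (-m) (fun i => -F (i + m)) (fun i => -G (i + m))
    (by obtain ⟨N, hN⟩ := hF; exact ⟨N - m, fun i hi => by rw [hN _ (by omega), neg_zero]⟩)
    (by obtain ⟨N, hN⟩ := hG; exact ⟨N - m, fun i hi => by rw [hN _ (by omega), neg_zero]⟩)
  left_inv x := shift_shift _ _ _ _ _ _ _ _ _ _ rfl (fun _ => rfl) (fun _ => rfl) x
  right_inv x := shift_shift _ _ _ _ _ _ _ _ _ _ (by ring) (fun i => by simp)
    (fun i => by simp) x
  map_rel_iff' := by
    intro x y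
    have hx := shift_shift m (-m) F (fun i => -F (i + m)) G (fun i => -G (i + m)) hF hG
      (by obtain ⟨N, hN⟩ := hF; exact ⟨N - m, fun i hi => by rw [hN _ (by omega), neg_zero]⟩)
      (by obtain ⟨N, hN⟩ := hG; exact ⟨N - m, fun i hi => by rw [hN _ (by omega), neg_zero]⟩)
      rfl (fun _ => rfl) (fun _ => rfl)
    constructor
    · rintro (h | h)
      · left
        have := shift_up (-m) (fun i => -F (i + m)) (fun i => -G (i + m))
          (by obtain ⟨N, hN⟩ := hF; exact ⟨N - m, fun i hi => by rw [hN _ (by omega), neg_zero]⟩)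
          (by obtain ⟨N, hN⟩ := hG; exact ⟨N - m, fun i hi => by rw [hN _ (by omega), neg_zero]⟩) h
        simpa only [Equiv.coe_fn_mk, hx] using this
      · right
        have := shift_up (-m) (fun i => -F (i + m)) (fun i => -G (i + m))
          (by obtain ⟨N, hN⟩ := hF; exact ⟨N - m, fun i hi => by rw [hN _ (by omega), neg_zero]⟩)
          (by obtain ⟨N, hN⟩ := hG; exact ⟨N - m, fun i hi => by rw [hN _ (by omega), neg_zero]⟩) h
        simpa only [Equiv.coe_fn_mk, hx] using this
    · rintro (h | h)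
      · exact Or.inl (shift_up m F G hF hG h)
      · exact Or.inr (shift_up m F G hF hG h)

/-- The origin. -/
def org : Vtx A B :=
  mk' 0 (fun _ => 0) (fun _ => 0) ⟨0, fun _ _ => rfl⟩ ⟨0, fun _ _ => rfl⟩

lemma shiftIso_org (v : Vtx A B) : shiftIso v.k v.f v.g v.f_left v.g_right org = v := by
  change shift v.k v.f v.g v.f_left v.g_right org = v
  ext i
  · simp [shift, org]
  · simp only [shift, org, mk'_f, mk'_k, ite_self, zero_add]
    by_cases h : i < v.k
    · rw [if_pos h]
    · rw [if_neg h, v.f_right i (by omega)]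
  · simp only [shift, org, mk'_g, mk'_k, ite_self, zero_add]
    by_cases h : v.k ≤ i
    · rw [if_pos h]
    · rw [if_neg h, v.g_left i (by omega)]

lemma transitive : IsVertexTransitive (DL A B) := by
  intro u v
  refine ⟨(shiftIso u.k u.f u.g u.f_left u.g_right).symm.trans
    (shiftIso v.k v.f v.g v.f_left v.g_right), ?_⟩
  rw [RelIso.trans_apply]
  have : (shiftIso u.k u.f u.g u.f_left u.g_right).symm u = org := by
    rw [RelIso.symm_apply_eq]
    exact (shiftIso_org u).symm
  rw [this]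
  exact shiftIso_org v

lemma infinite_vtx : Infinite (Vtx A B) := by
  refine Infinite.of_injective
    (fun n : ℤ => mk' n (fun _ => (0 : A)) (fun _ => (0 : B)) ⟨0, fun _ _ => rfl⟩
      ⟨0, fun _ _ => rfl⟩) ?_
  intro a b hab
  exact congrArg Vtx.k hab

end Shift

section Neighbours

variable {A B : Type} [Zero A] [Zero B]

/-- The right neighbour with new value `a`. -/
def rightN (x : Vtx A B) (a : A) : Vtx A B :=
  mk' (x.k + 1) (fun i => if i = x.k then a else x.f i) x.g
    (by
      obtain ⟨N, hN⟩ := x.f_left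
      exact ⟨min N x.k, fun i hi => by rw [if_neg (by omega), hN i (by omega)]⟩) x.g_right

/-- The left neighbour with new value `b`. -/
def leftN (x : Vtx A B) (b : B) : Vtx A B :=
  mk' (x.k - 1) x.f (fun i => if i = x.k - 1 then b else x.g i) x.f_left
    (by
      obtain ⟨N, hN⟩ := x.g_right
      exact ⟨max N x.k, fun i hi => by rw [if_neg (by omega), hN i (by omega)]⟩)

lemma adj_rightN (x : Vtx A B) (a : A) : (DL A B).Adj x (rightN x a) := by
  left
  refine ⟨by simp [rightN], ?_, ?_⟩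
  · intro i hi
    simp only [rightN, mk'_f]
    rw [if_pos (by omega), if_neg (by omega)]
  · intro i hi
    simp only [rightN, mk'_k] at hi
    simp only [rightN, mk'_g]
    rw [if_pos (by omega)]

lemma adj_leftN (x : Vtx A B) (b : B) : (DL A B).Adj x (leftN x b) := by
  right
  refine ⟨by simp [leftN], ?_, ?_⟩
  · intro i hi
    simp only [leftN, mk'_k] at hi
    simp only [leftN, mk'_f]
    rw [if_pos (by omega)]
  · intro i hi
    simp only [leftN, mk'_g]
    rw [if_pos (by omega), if_neg (by omega)]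

/-- The neighbours of `x`. -/
noncomputable def nbrEquiv (x : Vtx A B) : A ⊕ B ≃ (DL A B).neighborSet x := by
  refine Equiv.ofBijective
    (Sum.elim (fun a => ⟨rightN x a, adj_rightN x a⟩) (fun b => ⟨leftN x b, adj_leftN x b⟩)) ⟨?_, ?_⟩
  · rintro (a | b) (a' | b') h
    · have h1 := congrArg (fun z => z.1.f x.k) h
      simpa [rightN] using h1
    · have h1 := congrArg (fun z => z.1.k) h
      simp only [Sum.elim_inl, Sum.elim_inr, rightN, leftN, mk'_k] at h1
      omega
    · have h1 := congrArg (fun z => z.1.k) h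
      simp only [Sum.elim_inl, Sum.elim_inr, rightN, leftN, mk'_k] at h1
      omega
    · have h1 := congrArg (fun z => z.1.g (x.k - 1)) h
      simpa [leftN] using h1
  · rintro ⟨y, ⟨h1, h2, h3⟩ | ⟨h1, h2, h3⟩⟩
    · push_cast at h1
      refine ⟨Sum.inl (y.f x.k), ?_⟩
      apply Subtype.ext
      ext i
      · simp [rightN, h1]
      · simp only [Sum.elim_inl, rightN, mk'_f]
        by_cases h : i < x.k + 1
        · rw [if_pos h]
          by_cases h' : i = x.k
          · rw [if_pos h', h']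
          · rw [if_neg h', h2 i (by omega)]
        · rw [if_neg h, y.f_right i (by omega)]
      · simp only [Sum.elim_inl, rightN, mk'_g]
        by_cases h : x.k + 1 ≤ i
        · rw [if_pos h, h3 i (by omega)]
        · rw [if_neg h, y.g_left i (by omega)]
    · push_cast at h1
      refine ⟨Sum.inr (y.g (x.k - 1)), ?_⟩
      apply Subtype.ext
      ext i
      · simp [leftN, h1]
      · simp only [Sum.elim_inr, leftN, mk'_f]
        by_cases h : i < x.k - 1
        · rw [if_pos h, h2 i (by omega)]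
        · rw [if_neg h, y.f_right i (by omega)]
      · simp only [Sum.elim_inr, leftN, mk'_g]
        by_cases h : x.k - 1 ≤ i
        · rw [if_pos h]
          by_cases h' : i = x.k - 1
          · rw [if_pos h', h']
          · rw [if_neg h', h3 i (by omega)]
        · rw [if_neg h, y.g_left i (by omega)]

lemma nbrEquiv_inl (x : Vtx A B) (a : A) : (nbrEquiv x (Sum.inl a) : Vtx A B) = rightN x a := rfl
lemma nbrEquiv_inr (x : Vtx A B) (b : B) : (nbrEquiv x (Sum.inr b) : Vtx A B) = leftN x b := rfl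

noncomputable instance locFin [Fintype A] [Fintype B] : (DL A B).LocallyFinite :=
  fun x => Fintype.ofEquiv _ (nbrEquiv x)

lemma degree_eq [Fintype A] [Fintype B] (x : Vtx A B) :
    (DL A B).degree x = Fintype.card A + Fintype.card B := by
  rw [← card_neighborSet_eq_degree, ← Fintype.card_congr (nbrEquiv x), Fintype.card_sum]

lemma sum_nbr [Fintype A] [Fintype B] (x : Vtx A B) (h : Vtx A B → ℝ) :
    ∑ u ∈ (DL A B).neighborFinset x, h u = ∑ a, h (rightN x a) + ∑ b, h (leftN x b) := by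
  have h1 : ∑ u ∈ (DL A B).neighborFinset x, h u = ∑ u : (DL A B).neighborSet x, h u :=
    (Finset.sum_set_coe ((DL A B).neighborSet x) (f := h)).symm
  rw [h1, ← (nbrEquiv x).sum_comp (fun u => h u), Fintype.sum_sum_type]
  simp only [nbrEquiv_inl, nbrEquiv_inr]

end Neighbours

section Harmonic

variable {A B : Type} [Zero A] [Zero B] [DecidableEq A]

open Classical in
/-- The sign of a configuration: `+1` and `-1` on two sibling cones. -/
noncomputable def sgn (a₁ : A) (f : ℤ → A) : ℝ :=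
  if ∀ i, i < 0 → f i = 0 then (if f 0 = 0 then 1 else 0) - (if f 0 = a₁ then 1 else 0) else 0

omit [Zero B] in
lemma sgn_congr (a₁ : A) {f f' : ℤ → A} (h : ∀ i, i ≤ 0 → f i = f' i) : sgn a₁ f = sgn a₁ f' := by
  have h1 : (∀ i, i < 0 → f i = 0) ↔ (∀ i, i < 0 → f' i = 0) := by
    constructor
    · intro hh i hi
      rw [← h i (by omega), hh i hi]
    · intro hh i hi
      rw [h i (by omega), hh i hi]
  unfold sgn
  rw [h 0 le_rfl]
  by_cases h2 : ∀ i, i < 0 → f' i = 0
  · rw [if_pos h2, if_pos (h1.2 h2)]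
  · rw [if_neg h2, if_neg (fun h3 => h2 (h1.1 h3))]

lemma sgn_abs (a₁ : A) (f : ℤ → A) : |sgn a₁ f| ≤ 1 := by
  unfold sgn
  split_ifs <;> simp

/-- A bounded non-constant harmonic function. -/
noncomputable def phi (ρ : ℝ) (a₁ : A) (x : Vtx A B) : ℝ :=
  if 0 ≤ x.k then sgn a₁ x.f * (1 - ρ ^ x.k.toNat) else 0

lemma phi_abs {ρ : ℝ} (h0 : 0 ≤ ρ) (h1 : ρ ≤ 1) (a₁ : A) (x : Vtx A B) : |phi ρ a₁ x| ≤ 1 := by
  unfold phi
  split_ifs with h
  · rw [abs_mul]
    have h2 : |1 - ρ ^ x.k.toNat| ≤ 1 := by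
      rw [abs_le]
      have := pow_le_one₀ h0 h1 (n := x.k.toNat)
      have := pow_nonneg h0 x.k.toNat
      constructor <;> linarith
    calc |sgn a₁ x.f| * |1 - ρ ^ x.k.toNat| ≤ 1 * 1 :=
          mul_le_mul (sgn_abs a₁ x.f) h2 (abs_nonneg _) zero_le_one
      _ = 1 := one_mul 1
  · simp

lemma phi_harmonic [Fintype A] [Fintype B] {ρ : ℝ}
    (hA : (Fintype.card A : ℝ) * ρ = Fintype.card B) (a₁ : A) :
    IsHarmonic (DL A B) (phi ρ a₁) := by
  intro x
  have hApos : (0 : ℝ) < Fintype.card A := by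
    have : Nonempty A := ⟨0⟩
    exact_mod_cast Fintype.card_pos
  have hdeg : ((DL A B).degree x : ℝ) = Fintype.card A + Fintype.card B := by
    rw [degree_eq]; push_cast; rfl
  have hdpos : (0 : ℝ) < Fintype.card A + Fintype.card B := by positivity
  rw [hdeg, eq_div_iff hdpos.ne', sum_nbr]
  rcases lt_trichotomy x.k 0 with hk | hk | hk
  · have h1 : ∀ a, phi ρ a₁ (rightN x a) = 0 := by
      intro a
      unfold phi
      split_ifs with h
      · have : (rightN x a).k = 0 := by
          simp only [rightN, mk'_k] at h ⊢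
          omega
        rw [this]; simp
      · rfl
    have h2 : ∀ b, phi ρ a₁ (leftN x b) = 0 := by
      intro b
      unfold phi
      rw [if_neg]
      simp only [leftN, mk'_k]
      omega
    have h3 : phi ρ a₁ x = 0 := by
      unfold phi
      rw [if_neg (by omega)]
    simp [h1, h2, h3]
  · have h2 : ∀ b, phi ρ a₁ (leftN x b) = 0 := by
      intro b
      unfold phi
      rw [if_neg]
      simp only [leftN, mk'_k]
      omega
    have h3 : phi ρ a₁ x = 0 := by
      unfold phi
      rw [hk]; simp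
    have h1 : ∃ c : ℝ, ∀ a, phi ρ a₁ (rightN x a) =
        ((if a = 0 then 1 else 0) - (if a = a₁ then 1 else 0)) * c := by
      have hval : ∀ a, phi ρ a₁ (rightN x a) = sgn a₁ (rightN x a).f * (1 - ρ) := by
        intro a
        have hk1 : (rightN x a).k = 1 := by
          simp only [rightN, mk'_k]
          omega
        unfold phi
        rw [hk1]
        simp
      have hf0 : ∀ a, (rightN x a).f 0 = a := by
        intro a
        simp only [rightN, mk'_f, hk]
        simp
      have hfi : ∀ a i, i < 0 → (rightN x a).f i = x.f i := by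
        intro a i hi
        simp only [rightN, mk'_f, hk]
        rw [if_pos (by omega), if_neg (by omega)]
      by_cases h5 : ∀ i, i < 0 → x.f i = 0
      · refine ⟨1 - ρ, fun a => ?_⟩
        rw [hval]
        congr 1
        unfold sgn
        rw [if_pos (fun i hi => by rw [hfi a i hi, h5 i hi]), hf0]
      · refine ⟨0, fun a => ?_⟩
        rw [hval]
        have : sgn a₁ (rightN x a).f = 0 := by
          unfold sgn
          rw [if_neg (fun h6 => h5 (fun i hi => by rw [← hfi a i hi, h6 i hi]))]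
        rw [this]
        ring
    obtain ⟨c, hc⟩ := h1
    simp only [hc, h2, h3, ← Finset.sum_mul, Finset.sum_sub_distrib]
    simp
  · have h1 : ∀ a, phi ρ a₁ (rightN x a) = sgn a₁ x.f * (1 - ρ ^ (x.k.toNat + 1)) := by
      intro a
      unfold phi
      have hk1 : (rightN x a).k = x.k + 1 := rfl
      rw [hk1, if_pos (by omega)]
      have : (x.k + 1).toNat = x.k.toNat + 1 := by omega
      rw [this]
      congr 1
      apply sgn_congr
      intro i hi
      simp only [rightN, mk'_f]
      rw [if_pos (by omega), if_neg (by omega)]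
    have h2 : ∀ b, phi ρ a₁ (leftN x b) = sgn a₁ x.f * (1 - ρ ^ (x.k.toNat - 1)) := by
      intro b
      unfold phi
      have hk1 : (leftN x b).k = x.k - 1 := rfl
      rw [hk1, if_pos (by omega)]
      have h6 : (x.k - 1).toNat = x.k.toNat - 1 := by omega
      rw [h6]
      by_cases h7 : x.k = 1
      · rw [h7]; simp
      · congr 1
        apply sgn_congr
        intro i hi
        simp only [leftN, mk'_f]
        rw [if_pos (by omega)]
    have h3 : phi ρ a₁ x = sgn a₁ x.f * (1 - ρ ^ x.k.toNat) := by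
      unfold phi
      rw [if_pos (by omega)]
    simp only [h1, h2, h3, Finset.sum_const, Finset.card_univ, nsmul_eq_mul]
    obtain ⟨n, hn⟩ : ∃ n, x.k.toNat = n + 1 := ⟨x.k.toNat - 1, by omega⟩
    rw [hn, Nat.add_sub_cancel]
    rw [← hA]
    ring

lemma not_liouville [Fintype A] [Fintype B] {ρ : ℝ} (h0 : 0 < ρ) (h1 : ρ < 1)
    (hA : (Fintype.card A : ℝ) * ρ = Fintype.card B) (a₁ : A) (ha₁ : a₁ ≠ 0) :
    ¬ IsLiouville (DL A B) := by
  intro h
  have h2 := h (phi ρ a₁) (phi_harmonic hA a₁) ⟨1, phi_abs h0.le h1.le a₁⟩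
    (mk' 0 (fun _ => 0) (fun _ => 0) ⟨0, fun _ _ => rfl⟩ ⟨0, fun _ _ => rfl⟩)
    (mk' 1 (fun _ => 0) (fun _ => 0) ⟨0, fun _ _ => rfl⟩ ⟨0, fun _ _ => rfl⟩)
  simp [phi, sgn, ha₁.symm] at h2
  linarith

end Harmonic

section Survival

variable {A B : Type} [Zero A] [Zero B]

/-- Vertices with a far lamp on the right. -/
def ptR (b₁ : B) (k : ℤ) (a : A) (s : ℤ) : Vtx A B :=
  mk' k (fun i => if i = 0 then a else 0) (fun i => if i = s then b₁ else 0)
    ⟨0, fun i hi => if_neg (by omega)⟩ ⟨s + 1, fun i hi => if_neg (by omega)⟩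

/-- Vertices with a far lamp on the left. -/
def ptL (a₁ : A) (k : ℤ) (b : B) (s : ℤ) : Vtx A B :=
  mk' k (fun i => if i = -s then a₁ else 0) (fun i => if i = -1 then b else 0)
    ⟨-s, fun i hi => if_neg (by omega)⟩ ⟨0, fun i hi => if_neg (by omega)⟩

/-- The origin. -/
def og : Vtx A B :=
  mk' 0 (fun _ => 0) (fun _ => 0) ⟨0, fun _ _ => rfl⟩ ⟨0, fun _ _ => rfl⟩

@[simp] lemma og_k : (og : Vtx A B).k = 0 := rfl
@[simp] lemma og_f (i : ℤ) : (og : Vtx A B).f i = 0 := by simp [og]
@[simp] lemma og_g (i : ℤ) : (og : Vtx A B).g i = 0 := by simp [og]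
@[simp] lemma ptR_k (b₁ : B) (k : ℤ) (a : A) (s : ℤ) : (ptR b₁ k a s).k = k := rfl
@[simp] lemma ptL_k (a₁ : A) (k : ℤ) (b : B) (s : ℤ) : (ptL a₁ k b s).k = k := rfl
lemma ptR_g (b₁ : B) (k : ℤ) (a : A) (s : ℤ) (hks : k ≤ s) (i : ℤ) :
    (ptR b₁ k a s).g i = if i = s then b₁ else 0 := by
  simp only [ptR, mk'_g]
  by_cases h : i = s
  · rw [if_pos (by omega)]
  · rw [if_neg h, ite_self]
lemma ptL_f (a₁ : A) (k : ℤ) (b : B) (s : ℤ) (hks : -s < k) (i : ℤ) :
    (ptL a₁ k b s).f i = if i = -s then a₁ else 0 := by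
  simp only [ptL, mk'_f]
  by_cases h : i = -s
  · rw [if_pos (by omega)]
  · rw [if_neg h, ite_self]

/-- The set of vertices confined to `[-M, M]` is finite. -/
lemma finite_box [Finite A] [Finite B] (M : ℤ) :
    {u : Vtx A B | -M ≤ u.k ∧ u.k ≤ M ∧ (∀ i, i < -M → u.f i = 0) ∧
      (∀ i, M ≤ i → u.g i = 0)}.Finite := by
  let φ : Vtx A B → ℤ × (Set.Icc (-M) M → A) × (Set.Icc (-M) M → B) :=
    fun u => (u.k, fun i => u.f i, fun i => u.g i)
  apply Set.Finite.of_finite_image (f := φ)
  · apply Set.Finite.subset (s := (Set.Icc (-M) M) ×ˢ Set.univ)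
    · exact (Set.finite_Icc (-M) M).prod Set.finite_univ
    · rintro _ ⟨u, ⟨h1, h2, -, -⟩, rfl⟩
      exact ⟨⟨h1, h2⟩, trivial⟩
  · rintro u ⟨h1, h2, h3, h4⟩ v ⟨h1', h2', h3', h4'⟩ huv
    simp only [φ, Prod.mk.injEq] at huv
    obtain ⟨e1, e2, e3⟩ := huv
    ext i
    · exact e1
    · by_cases hi : i < -M
      · rw [h3 i hi, h3' i hi]
      · by_cases hi' : i ≤ M
        · exact congrFun e2 ⟨i, by omega, hi'⟩
        · rw [u.f_right i (by omega), v.f_right i (by omega)]
    · by_cases hi : M ≤ i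
      · rw [h4 i hi, h4' i hi]
      · by_cases hi' : -M ≤ i
        · exact congrFun e3 ⟨i, hi', by omega⟩
        · rw [u.g_left i (by omega), v.g_left i (by omega)]

/-- Separation by a far lamp on the right. -/
lemma sep_right {x y : Vtx A B} {s N : ℤ} (hx : x.k ≤ 1) (hx' : -1 ≤ x.k)
    (hy : y.k ≤ 1) (hy' : -1 ≤ y.k) (hs : N ≤ s) (h : x.g s ≠ y.g s) :
    2 * N - 2 ≤ ((DL A B).dist x y : ℤ) := by
  obtain ⟨c₁, c₂, ⟨h1, h2, h3, h4, h5, h6⟩, hle⟩ := exists_dist x y
  have h7 : s < c₂ := by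
    by_contra hc
    exact h (h6 s (by omega))
  have h8 : |y.k - x.k| ≤ 2 := by rw [abs_le]; constructor <;> omega
  omega

/-- Separation by a far lamp on the left. -/
lemma sep_left {x y : Vtx A B} {s N : ℤ} (hx : x.k ≤ 1) (hx' : -1 ≤ x.k)
    (hy : y.k ≤ 1) (hy' : -1 ≤ y.k) (hs : N ≤ s) (h : x.f (-s) ≠ y.f (-s)) :
    2 * N - 4 ≤ ((DL A B).dist x y : ℤ) := by
  obtain ⟨c₁, c₂, ⟨h1, h2, h3, h4, h5, h6⟩, hle⟩ := exists_dist x y
  have h7 : c₁ ≤ -s := by
    by_contra hc
    exact h (h5 (-s) (by omega))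
  have h8 : |y.k - x.k| ≤ 2 := by rw [abs_le]; constructor <;> omega
  omega

/-- The index type of the configuration. -/
abbrev J (A B : Type) (m : ℕ) : Type := Unit ⊕ (Option A ⊕ Fin m) ⊕ Option B

variable [Fintype A] [Fintype B]

/-- Height of the right points. -/
def kR (m : ℕ) : Option A ⊕ Fin m → ℤ := Sum.elim (fun o => o.elim (-1) (fun _ => 1)) (fun _ => 0)
/-- Value at `0` of the right points. -/
def aR (m : ℕ) : Option A ⊕ Fin m → A := Sum.elim (fun o => o.elim 0 (fun a => a)) (fun _ => 0)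
/-- Height of the left points. -/
def kL : Option B → ℤ := fun o => o.elim 1 (fun _ => -1)
/-- Value at `-1` of the left points. -/
def bL : Option B → B := fun o => o.elim 0 (fun b => b)

/-- Lamp site of the right points. -/
noncomputable def sR (A : Type) [Fintype A] (N : ℤ) (m : ℕ) (j : Option A ⊕ Fin m) : ℤ :=
  N + ((Fintype.equivFin (Option A ⊕ Fin m)) j : ℕ)
/-- Lamp site of the left points. -/
noncomputable def sL (B : Type) [Fintype B] (N : ℤ) (j : Option B) : ℤ :=
  N + ((Fintype.equivFin (Option B)) j : ℕ)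

/-- The points. -/
noncomputable def P (a₁ : A) (b₁ : B) (N : ℤ) (m : ℕ) : J A B m → Vtx A B :=
  Sum.elim (fun _ => og) (Sum.elim (fun j => ptR b₁ (kR m j) (aR m j) (sR A N m j))
    (fun j => ptL a₁ (kL j) (bL j) (sL B N j)))

omit [Fintype A] in
lemma kR_bd (m : ℕ) (j : Option A ⊕ Fin m) : -1 ≤ kR m j ∧ kR m j ≤ 1 := by
  rcases j with (_ | a) | i <;> simp [kR]
omit [Fintype B] in
lemma kL_bd (j : Option B) : -1 ≤ kL j ∧ kL j ≤ 1 := by
  rcases j with _ | a <;> simp [kL]
lemma sR_ge (N : ℤ) (m : ℕ) (j : Option A ⊕ Fin m) : N ≤ sR A N m j := by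
  unfold sR; omega
lemma sL_ge (N : ℤ) (j : Option B) : N ≤ sL B N j := by
  unfold sL; omega

lemma P_k (a₁ : A) (b₁ : B) (N : ℤ) (m : ℕ) (j : J A B m) :
    (P a₁ b₁ N m j).k ≤ 1 ∧ -1 ≤ (P a₁ b₁ N m j).k := by
  rcases j with _ | j | j
  · simp [P]
  · simp only [P, Sum.elim_inr, Sum.elim_inl, ptR_k]
    exact (kR_bd m j).symm
  · simp only [P, Sum.elim_inr, ptL_k]
    exact (kL_bd j).symm

lemma P_sep (a₁ : A) (b₁ : B) (ha₁ : a₁ ≠ 0) (hb₁ : b₁ ≠ 0) (N : ℤ) (hN : 2 ≤ N) (m : ℕ)
    (i j : J A B m) (hij : i ≠ j) :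
    2 * N - 4 ≤ ((DL A B).dist (P a₁ b₁ N m i) (P a₁ b₁ N m j) : ℤ) := by
  have hi := P_k a₁ b₁ N m i
  have hj := P_k a₁ b₁ N m j
  -- right lamps
  have hR : ∀ (j : Option A ⊕ Fin m) (s : ℤ), N ≤ s →
      (P a₁ b₁ N m (Sum.inr (Sum.inl j)) : Vtx A B).g s = if s = sR A N m j then b₁ else 0 := by
    intro j s hs
    have h1 := kR_bd m j
    have h2 := sR_ge N m j
    simp only [P, Sum.elim_inr, Sum.elim_inl]
    rw [ptR_g _ _ _ _ (by omega)]
  have hL : ∀ (j : Option B) (s : ℤ), N ≤ s →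
      (P a₁ b₁ N m (Sum.inr (Sum.inr j)) : Vtx A B).f (-s) = if s = sL B N j then a₁ else 0 := by
    intro j s hs
    have h1 := kL_bd j
    have h2 := sL_ge N j
    simp only [P, Sum.elim_inr]
    rw [ptL_f _ _ _ _ (by omega)]
    simp only [neg_inj]
  have hLg : ∀ (j : Option B) (s : ℤ), N ≤ s →
      (P a₁ b₁ N m (Sum.inr (Sum.inr j)) : Vtx A B).g s = 0 := by
    intro j s hs
    simp only [P, Sum.elim_inr, ptL, mk'_g]
    rw [if_neg (c := s = -1) (by omega), ite_self]
  have hO : ∀ (u : Unit) (s : ℤ), (P a₁ b₁ N m (Sum.inl u) : Vtx A B).g s = 0 := by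
    intro u s
    simp [P]
  have hOf : ∀ (u : Unit) (s : ℤ), (P a₁ b₁ N m (Sum.inl u) : Vtx A B).f s = 0 := by
    intro u s
    simp [P]
  rcases i with i | i | i <;> rcases j with j | j | j
  · exact absurd (by cases i; cases j; rfl) hij
  · have := sep_right (N := N) (s := sR A N m j) hi.1 hi.2 hj.1 hj.2 (sR_ge N m j)
      (by rw [hO, hR j _ (sR_ge N m j), if_pos rfl]; exact hb₁.symm)
    omega
  · exact sep_left (N := N) (s := sL B N j) hi.1 hi.2 hj.1 hj.2 (sL_ge N j)
      (by rw [hOf, hL j _ (sL_ge N j), if_pos rfl]; exact ha₁.symm)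
  · have := sep_right (N := N) (s := sR A N m i) hi.1 hi.2 hj.1 hj.2 (sR_ge N m i)
      (by rw [hO, hR i _ (sR_ge N m i), if_pos rfl]; exact hb₁)
    omega
  · have hne : sR A N m i ≠ sR A N m j := by
      intro h
      apply hij
      unfold sR at h
      have h1 : ((Fintype.equivFin (Option A ⊕ Fin m)) i : ℕ) =
        ((Fintype.equivFin (Option A ⊕ Fin m)) j : ℕ) := by omega
      rw [(Fintype.equivFin (Option A ⊕ Fin m)).injective (Fin.ext h1)]
    have := sep_right (N := N) (s := sR A N m i) hi.1 hi.2 hj.1 hj.2 (sR_ge N m i)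
      (by rw [hR i _ (sR_ge N m i), if_pos rfl, hR j _ (sR_ge N m i), if_neg hne]; exact hb₁)
    omega
  · have := sep_right (N := N) (s := sR A N m i) hi.1 hi.2 hj.1 hj.2 (sR_ge N m i)
      (by rw [hR i _ (sR_ge N m i), if_pos rfl, hLg j _ (sR_ge N m i)]; exact hb₁)
    omega
  · exact sep_left (N := N) (s := sL B N i) hi.1 hi.2 hj.1 hj.2 (sL_ge N i)
      (by rw [hOf, hL i _ (sL_ge N i), if_pos rfl]; exact ha₁)
  · have := sep_right (N := N) (s := sR A N m j) hi.1 hi.2 hj.1 hj.2 (sR_ge N m j)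
      (by rw [hR j _ (sR_ge N m j), if_pos rfl, hLg i _ (sR_ge N m j)]; exact hb₁.symm)
    omega
  · have hne : sL B N i ≠ sL B N j := by
      intro h
      apply hij
      unfold sL at h
      have h1 : ((Fintype.equivFin (Option B)) i : ℕ) = ((Fintype.equivFin (Option B)) j : ℕ) := by
        omega
      rw [(Fintype.equivFin (Option B)).injective (Fin.ext h1)]
    exact sep_left (N := N) (s := sL B N i) hi.1 hi.2 hj.1 hj.2 (sL_ge N i)
      (by rw [hL i _ (sL_ge N i), if_pos rfl, hL j _ (sL_ge N i), if_neg hne]; exact ha₁)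

/-- The cell of the origin is contained in a box. -/
lemma cell_sub (a₁ : A) (b₁ : B) (N : ℤ) (hN : 2 ≤ N) (m : ℕ) (M : ℤ)
    (hMR : ∀ j, sR A N m j < M) (hML : ∀ j, sL B N j < M) (u : Vtx A B)
    (hu : ∀ j : J A B m, (DL A B).dist u og ≤ (DL A B).dist u (P a₁ b₁ N m j)) :
    -M ≤ u.k ∧ u.k ≤ M ∧ (∀ i, i < -M → u.f i = 0) ∧ (∀ i, M ≤ i → u.g i = 0) := by
  obtain ⟨c₁, c₂, ⟨h1, h2, h3, h4, h5, h6⟩, hle⟩ := exists_dist u (og : Vtx A B)
  simp only [og_k, og_f, og_g] at h1 h2 h3 h4 h5 h6 hle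
  have hMpos : N < M := by
    have := hML none
    have := sL_ge (B := B) N none
    omega
  -- it suffices to bound `c₁` and `c₂`
  have key : ∀ (j : J A B m) (c₁' c₂' : ℤ), Cert c₁' c₂' u (P a₁ b₁ N m j) →
      2 * (c₂ - c₁) - |0 - u.k| ≤ 2 * (c₂' - c₁') - |(P a₁ b₁ N m j).k - u.k| := by
    intro j c₁' c₂' hc
    have e1 := dist_le hc
    have e2 := hu j
    have e3 : ((DL A B).dist u og : ℤ) ≤ ((DL A B).dist u (P a₁ b₁ N m j) : ℤ) := by
      exact_mod_cast e2
    omega
  have hc₁ : -M < c₁ := by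
    by_contra hcon
    have hcon' : c₁ ≤ -M := by omega
    rcases le_or_gt 0 u.k with hk | hk
    · -- use any child on the second side
      have hj := key (Sum.inr (Sum.inr (some b₁))) c₁ c₂ (by
        have hs := hML (some b₁)
        have hs' := sL_ge (B := B) N (some b₁)
        refine ⟨h1, ?_, h3, ?_, ?_, ?_⟩
        · simp only [P, Sum.elim_inr, ptL_k, kL, Option.elim]; omega
        · simp only [P, Sum.elim_inr, ptL_k, kL, Option.elim]; omega
        · intro i hi
          rw [h5 i hi]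
          simp only [P, Sum.elim_inr, ptL, mk'_f]
          rw [if_neg (c := i = -sL B N (some b₁)) (by omega), ite_self]
        · intro i hi
          rw [h6 i hi]
          simp only [P, Sum.elim_inr, ptL, mk'_g]
          rw [if_neg (c := i = -1) (by omega), ite_self])
      simp only [P, Sum.elim_inr, ptL_k, kL, Option.elim] at hj
      rw [abs_of_nonpos (by omega), abs_of_nonpos (by omega)] at hj
      omega
    · rcases le_or_gt c₂ 0 with hc | hc
      · -- `c₂ = 0`, use the child matching `u`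
        have hc0 : c₂ = 0 := by omega
        have hj := key (Sum.inr (Sum.inr (some (u.g (-1))))) c₁ (-1) (by
          have hs := hML (some (u.g (-1)))
          refine ⟨h1, ?_, by omega, ?_, ?_, ?_⟩
          · simp only [P, Sum.elim_inr, ptL_k, kL, Option.elim]; omega
          · simp only [P, Sum.elim_inr, ptL_k, kL, Option.elim]; omega
          · intro i hi
            rw [h5 i hi]
            simp only [P, Sum.elim_inr, ptL, mk'_f]
            rw [if_neg (c := i = -sL B N (some (u.g (-1)))) (by omega), ite_self]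
          · intro i hi
            simp only [P, Sum.elim_inr, ptL, mk'_g, kL, bL, Option.elim]
            rw [if_pos (by omega)]
            by_cases hi' : i = -1
            · rw [if_pos hi', hi']
            · rw [if_neg hi', h6 i (by omega)])
        simp only [P, Sum.elim_inr, ptL_k, kL, Option.elim] at hj
        rw [abs_of_nonneg (by omega), abs_of_nonneg (by omega)] at hj
        omega
      · have hj := key (Sum.inr (Sum.inr none)) c₁ c₂ (by
          have hs := hML none
          refine ⟨h1, ?_, h3, ?_, ?_, ?_⟩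
          · simp only [P, Sum.elim_inr, ptL_k, kL, Option.elim]; omega
          · simp only [P, Sum.elim_inr, ptL_k, kL, Option.elim]; omega
          · intro i hi
            rw [h5 i hi]
            simp only [P, Sum.elim_inr, ptL, mk'_f]
            rw [if_neg (c := i = -sL B N none) (by omega), ite_self]
          · intro i hi
            rw [h6 i hi]
            simp only [P, Sum.elim_inr, ptL, mk'_g]
            rw [if_neg (c := i = -1) (by omega), ite_self])
        simp only [P, Sum.elim_inr, ptL_k, kL, Option.elim] at hj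
        rw [abs_of_nonneg (by omega), abs_of_nonneg (by omega)] at hj
        omega
  have hc₂ : c₂ < M := by
    by_contra hcon
    have hcon' : M ≤ c₂ := by omega
    rcases le_or_gt u.k 0 with hk | hk
    · -- use any child on the first side
      have hj := key (Sum.inr (Sum.inl (Sum.inl (some a₁)))) c₁ c₂ (by
        have hs := hMR (Sum.inl (some a₁))
        refine ⟨h1, ?_, h3, ?_, ?_, ?_⟩
        · simp only [P, Sum.elim_inr, Sum.elim_inl, ptR_k, kR, Option.elim]; omega
        · simp only [P, Sum.elim_inr, Sum.elim_inl, ptR_k, kR, Option.elim]; omega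
        · intro i hi
          rw [h5 i hi]
          simp only [P, Sum.elim_inr, Sum.elim_inl, ptR, mk'_f]
          rw [if_neg (c := i = 0) (by omega), ite_self]
        · intro i hi
          rw [h6 i hi]
          simp only [P, Sum.elim_inr, Sum.elim_inl, ptR, mk'_g]
          rw [if_neg (c := i = sR A N m (Sum.inl (some a₁))) (by omega), ite_self])
      simp only [P, Sum.elim_inr, Sum.elim_inl, ptR_k, kR, Option.elim] at hj
      rw [abs_of_nonneg (by omega), abs_of_nonneg (by omega)] at hj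
      omega
    · rcases le_or_gt 0 c₁ with hc | hc
      · have hc0 : c₁ = 0 := by omega
        have hj := key (Sum.inr (Sum.inl (Sum.inl (some (u.f 0))))) 1 c₂ (by
          have hs := hMR (Sum.inl (some (u.f 0)))
          refine ⟨by omega, ?_, h3, ?_, ?_, ?_⟩
          · simp only [P, Sum.elim_inr, Sum.elim_inl, ptR_k, kR, Option.elim]; omega
          · simp only [P, Sum.elim_inr, Sum.elim_inl, ptR_k, kR, Option.elim]; omega
          · intro i hi
            simp only [P, Sum.elim_inr, Sum.elim_inl, ptR, mk'_f, kR, aR, Option.elim]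
            rw [if_pos (by omega)]
            by_cases hi' : i = 0
            · rw [if_pos hi', hi']
            · rw [if_neg hi', h5 i (by omega)]
          · intro i hi
            rw [h6 i hi]
            simp only [P, Sum.elim_inr, Sum.elim_inl, ptR, mk'_g]
            rw [if_neg (c := i = sR A N m (Sum.inl (some (u.f 0)))) (by omega), ite_self])
        simp only [P, Sum.elim_inr, Sum.elim_inl, ptR_k, kR, Option.elim] at hj
        rw [abs_of_nonpos (by omega), abs_of_nonpos (by omega)] at hj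
        omega
      · have hj := key (Sum.inr (Sum.inl (Sum.inl none))) c₁ c₂ (by
          have hs := hMR (Sum.inl none)
          refine ⟨h1, ?_, h3, ?_, ?_, ?_⟩
          · simp only [P, Sum.elim_inr, Sum.elim_inl, ptR_k, kR, Option.elim]; omega
          · simp only [P, Sum.elim_inr, Sum.elim_inl, ptR_k, kR, Option.elim]; omega
          · intro i hi
            rw [h5 i hi]
            simp only [P, Sum.elim_inr, Sum.elim_inl, ptR, mk'_f]
            rw [if_neg (c := i = 0) (by omega), ite_self]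
          · intro i hi
            rw [h6 i hi]
            simp only [P, Sum.elim_inr, Sum.elim_inl, ptR, mk'_g]
            rw [if_neg (c := i = sR A N m (Sum.inl none)) (by omega), ite_self])
        simp only [P, Sum.elim_inr, Sum.elim_inl, ptR_k, kR, Option.elim] at hj
        rw [abs_of_nonpos (by omega), abs_of_nonpos (by omega)] at hj
        omega
  refine ⟨by omega, by omega, fun i hi => h5 i (by omega), fun i hi => h6 i (by omega)⟩

lemma survival_le (a₁ : A) (b₁ : B) (ha₁ : a₁ ≠ 0) (hb₁ : b₁ ≠ 0) :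
    survivalNumber (DL A B) ≤ ((Fintype.card A + Fintype.card B + 2 : ℕ) : ℕ∞) := by
  classical
  apply sSup_le
  rintro _ ⟨n, hn1, ⟨d, hd⟩, rfl⟩
  by_contra hcon
  have hn : Fintype.card A + Fintype.card B + 3 ≤ n := by
    by_contra h
    apply hcon
    exact_mod_cast (by omega : n ≤ Fintype.card A + Fintype.card B + 2)
  obtain ⟨m, hm⟩ := Nat.exists_eq_add_of_le hn
  set N : ℤ := d + 3 with hN
  have hsep := P_sep a₁ b₁ ha₁ hb₁ N (by omega) m
  have hinj : Function.Injective (P a₁ b₁ N m) := by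
    intro i j hij
    by_contra hne
    have := hsep i j hne
    rw [hij, SimpleGraph.dist_self] at this
    omega
  set T : Finset (Vtx A B) := Finset.univ.image (P a₁ b₁ N m) with hT
  have hcard : T.card = n := by
    rw [hT, Finset.card_image_of_injective _ hinj, Finset.card_univ, hm]
    simp only [Fintype.card_sum, Fintype.card_option, Fintype.card_fin, Fintype.card_unit]
    omega
  have hTmem : T ∈ sepFamily (DL A B) d n := by
    refine ⟨hcard.ge, ?_⟩
    intro v₁ hv₁ v₂ hv₂ hne
    rw [hT, Finset.mem_image] at hv₁ hv₂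
    obtain ⟨i, -, rfl⟩ := hv₁
    obtain ⟨j, -, rfl⟩ := hv₂
    have := hsep i j (fun h => hne (by rw [h]))
    omega
  have hfin : (cell (DL A B) T og).Finite := by
    set M : ℤ := N + Fintype.card (Option A ⊕ Fin m) + Fintype.card (Option B) + 1 with hM
    refine (finite_box (A := A) (B := B) M).subset ?_
    intro u hu
    refine cell_sub a₁ b₁ N (by omega) m M ?_ ?_ u ?_
    · intro j
      have := ((Fintype.equivFin (Option A ⊕ Fin m)) j).2
      unfold sR
      omega
    · intro j
      have := ((Fintype.equivFin (Option B)) j).2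
      unfold sL
      omega
    · intro j
      exact hu _ (Finset.mem_image_of_mem _ (Finset.mem_univ j))
  have hogT : (og : Vtx A B) ∈ T := by
    rw [hT, Finset.mem_image]
    exact ⟨Sum.inl (), Finset.mem_univ _, rfl⟩
  have h1 : numInfiniteCells (DL A B) T < T.card := by
    unfold numInfiniteCells
    have h2 : {v : Vtx A B | v ∈ T ∧ (cell (DL A B) T v).Infinite} ⊆ (T.erase og : Finset _) := by
      rintro v ⟨hv, hv'⟩
      rw [Finset.coe_erase]
      refine ⟨hv, ?_⟩
      rintro rfl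
      exact hv' hfin
    calc _ ≤ ((T.erase og : Finset _) : Set (Vtx A B)).ncard :=
          Set.ncard_le_ncard h2 (Finset.finite_toSet _)
      _ = (T.erase og).card := Set.ncard_coe_finset _
      _ < T.card := Finset.card_erase_lt_of_mem hogT
  have h3 := hd T hTmem
  omega

end Survival

/-- For all integers `q > r ≥ 2` there is an infinite, connected, locally finite,
vertex-transitive, `(q + r)`-regular, non-Liouville graph with survival number at most
`q + r + 2`. -/
theorem main (q r : ℕ) (hr : 2 ≤ r) (hqr : r < q) :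
    ∃ (V : Type) (G : SimpleGraph V) (_ : G.LocallyFinite), Infinite V ∧ G.Connected ∧
      IsVertexTransitive G ∧ (∀ v, G.degree v = q + r) ∧ ¬ IsLiouville G ∧
      survivalNumber G ≤ ((q + r + 2 : ℕ) : ℕ∞) := by
  have hq : NeZero q := ⟨by omega⟩
  have hr' : NeZero r := ⟨by omega⟩
  have hq1 : Fact (1 < q) := ⟨by omega⟩
  have hr1 : Fact (1 < r) := ⟨by omega⟩
  refine ⟨Vtx (ZMod q) (ZMod r), DL (ZMod q) (ZMod r), locFin, infinite_vtx, connected, transitive,
    ?_, ?_, ?_⟩
  · intro v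
    rw [degree_eq, ZMod.card, ZMod.card]
  · have hq0 : (0 : ℝ) < q := by exact_mod_cast (by omega : 0 < q)
    have hr0 : (0 : ℝ) < r := by exact_mod_cast (by omega : 0 < r)
    apply not_liouville (ρ := (r : ℝ) / q) (by positivity) _ _ (1 : ZMod q) one_ne_zero
    · rw [div_lt_one hq0]
      exact_mod_cast hqr
    · rw [ZMod.card, ZMod.card]
      field_simp
  · have := survival_le (A := ZMod q) (B := ZMod r) 1 1 one_ne_zero one_ne_zero
    rwa [ZMod.card, ZMod.card] at this

end Pool.Agent.Lib.MP_70c392_co
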